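import Pool.Agent.U554.TU.Uni
import Pool.Agent.Q193.LT.Prime

/-!
# Affine bundles, properties of direct factors, the case of the prime fields
-/

set_option autoImplicit false

open CategoryTheory AlgebraicGeometry MvPolynomial Pool.Agent.Y116.UV

namespace Pool.Agent.U554.TU

universe w

variable {R : Type} [CommRing R]

/-- `π : E → X` is an affine bundle of rank `r`: locally on `X` it is the projection of the product with
the affine space of dimension `r`. -/
def IsAffineBundle (r : ℕ) {E X : Sch R} (π : E ⟶ X) : Prop :=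
  ∀ x : X.left, ∃ (U : X.left.Opens) (e : (π.left ⁻¹ᵁ U : Scheme) ≅ 𝔸(Fin r; U)), x ∈ U ∧
    e.hom ≫ (𝔸(Fin r; U) ↘ (U : Scheme)) = π.left ∣_ U

/-- There is an affine bundle over `X` whose total space is affine. By Jouanolou and Thomason this
is true for all quasi-projective schemes over a field and for all smooth separated schemes of finite
type over a field, for example. -/
def HasAffineBundle (X : Sch R) : Prop :=
  ∃ (A : Type) (_ : CommRing A) (_ : Algebra R A) (_ : Algebra.FiniteType R A) (r : ℕ)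
    (π : aff R A ⟶ X), IsAffineBundle r π

/-- The affine space of dimension zero. -/
noncomputable def spaceZero (S : Scheme.{0}) : S ≅ 𝔸(Fin 0; S) where
  hom := AffineSpace.homOfVector (𝟙 S) (fun i => i.elim0)
  inv := 𝔸(Fin 0; S) ↘ S
  hom_inv_id := AffineSpace.homOfVector_over _ _
  inv_hom_id := by
    apply AffineSpace.hom_ext
    · rw [Category.assoc, AffineSpace.homOfVector_over, Category.comp_id, Category.id_comp]
    · exact fun i => i.elim0

/-- An affine scheme is an affine bundle of rank zero over itself. -/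
lemma has_aff (A : Type) [CommRing A] [Algebra R A] [Algebra.FiniteType R A] :
    HasAffineBundle (aff R A) := by
  refine ⟨A, inferInstance, inferInstance, inferInstance, 0, 𝟙 _, ?_⟩
  intro x
  have h1 : IsIso (𝟙 (aff R A) : aff R A ⟶ aff R A).left :=
    inferInstanceAs (IsIso (𝟙 (aff R A).left))
  refine ⟨⊤, asIso ((𝟙 (aff R A) : aff R A ⟶ aff R A).left ∣_ ⊤) ≪≫ spaceZero _, trivial, ?_⟩
  have h : (spaceZero ((⊤ : (aff R A).left.Opens) : Scheme)).hom ≫
      (𝔸(Fin 0; ((⊤ : (aff R A).left.Opens) : Scheme)) ↘ ((⊤ : (aff R A).left.Opens) : Scheme)) =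
      𝟙 _ := AffineSpace.homOfVector_over _ _
  rw [Iso.trans_hom, asIso_hom, Category.assoc, h, Category.comp_id]

/-- Homotopy invariance for affine bundles. -/
def BundleInvariant {K G : Type} [CommRing K] (O : ℤ → ℤ → Sch R → Reg.{w} K G) : Prop :=
  ∀ {E X : Sch R} (r : ℕ) (π : E ⟶ X), FT True X → IsAffineBundle r π → ∀ b m : ℤ,
    Reg.Iso (O b m X) (O (b + r) m E)

/-- A property of the objects `Reg K G` which passes to direct factors. -/
def Inherited {K G : Type} [CommRing K] (P : Reg.{w} K G → Prop) : Prop :=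
  ∀ X Y : Reg.{w} K G, Reg.Factor X Y → P Y → P X

lemma Inherited.iff {K G : Type} [CommRing K] {P : Reg.{w} K G → Prop} (hP : Inherited P)
    {X Y : Reg.{w} K G} (h : Reg.Iso X Y) : P X ↔ P Y :=
  ⟨hP _ _ h.factor', hP _ _ h.factor⟩

section

variable {K G : Type} [CommRing K] {O : ℤ → ℤ → Sch R → Reg.{w} K G}
  {P : Reg.{w} K G → Prop}

/-- From the hypersurfaces `T(x, y, z) = 1` to the affine schemes. -/
theorem affine_of_hyp (hO : IsTheory O) (hP : Inherited P) {S : Set R} (h0 : 0 ∈ S) (h1 : 1 ∈ S)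
    (hS : Presents S) (m : ℤ)
    (h : ∀ (a₁ a₂ a₃ : ℕ) (T : Fin a₁ → Fin a₂ → Fin a₃ → R), (∀ i j k, T i j k ∈ S) →
      ∀ j : ℕ, 1 ≤ j → P (O (a₁ + a₂ + a₃ - 1 - j) (m + 1) (hypS T)))
    (A : Type) [CommRing A] [Algebra R A] [Algebra.FiniteType R A] (b : ℤ) :
    P (O b m (aff R A)) := by
  obtain ⟨a₁, a₂, a₃, T, hT, hb, hF⟩ := universal_factor hO h0 h1 hS A b m
  have h2 := h a₁ a₂ a₃ T hT ((a₂ + a₃ : ℤ) - (b + 2)).toNat (by omega)
  have h3 : (a₁ + a₂ + a₃ - 1 - (((a₂ + a₃ : ℤ) - (b + 2)).toNat : ℤ) : ℤ) = b + 2 + a₁ - 1 := by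
    omega
  rw [h3] at h2
  exact hP _ _ hF h2

/-- From the affine schemes to the schemes with an affine bundle. -/
theorem bundle_of_affine (hB : BundleInvariant O) (hP : Inherited P) (m : ℤ)
    (h : ∀ (A : Type) [CommRing A] [Algebra R A] [Algebra.FiniteType R A] (b : ℤ),
      P (O b m (aff R A))) (X : Sch R) (hX : FT True X) (hX' : HasAffineBundle X) (b : ℤ) :
    P (O b m X) := by
  obtain ⟨A, _, _, _, r, π, hπ⟩ := hX'
  exact hP _ _ (hB r π hX hπ b m).factor (h A _)

end

/-- The hypersurface of a set of triples is the one of a trilinear form. -/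
lemma trip_hyp {a₁ a₂ a₃ : ℕ} (H : Finset (Fin a₁ × Fin a₂ × Fin a₃)) :
    ∃ T : Fin a₁ → Fin a₂ → Fin a₃ → R, (∀ i j k, T i j k ∈ ({0, 1} : Set R)) ∧
      hypS T = tripS R H := by
  classical
  refine ⟨fun i j k => if (i, j, k) ∈ H then (1 : R) else 0, fun i j k => ?_, ?_⟩
  · dsimp only
    split_ifs
    · exact Or.inr rfl
    · exact Or.inl rfl
  · unfold hypS tripS Trip
    rw [← tri_ind]

/-- The trilinear forms with coefficients `0` and `1` and the sets of triples. -/
lemma hyp_zero_one {a₁ a₂ a₃ : ℕ} (T : Fin a₁ → Fin a₂ → Fin a₃ → R)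
    (hT : ∀ i j k, T i j k ∈ ({0, 1} : Set R)) :
    ∃ H : Finset (Fin a₁ × Fin a₂ × Fin a₃), hypS T = tripS R H := by
  classical
  let H : Finset (Fin a₁ × Fin a₂ × Fin a₃) := Finset.univ.filter fun h => T h.1 h.2.1 h.2.2 = 1
  have h1 : T = fun i j k => if (i, j, k) ∈ H then (1 : R) else 0 := by
    funext i j k
    have hm : (i, j, k) ∈ H ↔ T i j k = 1 := by
      rw [Finset.mem_filter]
      exact ⟨fun h => h.2, fun h => ⟨Finset.mem_univ _, h⟩⟩
    by_cases h : T i j k = 1
    · rw [if_pos (hm.mpr h), h]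
    · rw [if_neg fun h2 => h (hm.mp h2)]
      rcases hT i j k with h2 | h2
      · exact h2
      · exact absurd h2 h
  refine ⟨H, ?_⟩
  unfold hypS tripS Trip
  rw [← tri_ind, ← h1]

/-- The value of the hypersurface `T(x, y, z) = 1` and of the complement of the bilinear system
`T(·, y, z) = 0`. -/
lemma hyp_bundle {K G : Type} [CommRing K] {O : ℤ → ℤ → Sch R → Reg.{w} K G} (hO : IsTheory O)
    {a₁ a₂ a₃ : ℕ} (T : Fin a₁ → Fin a₂ → Fin a₃ → R) (b m : ℤ) :
    Reg.Iso (O b m (opn (aff R (MvPolynomial (Fin a₂ ⊕ Fin a₃) R))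
      (neOpen R fun i => bil (Fin a₂) (Fin a₃) (T i)))) (O (b + a₁ - 1) m (hypS T)) :=
  (bundle_ne hO (fun i => bil (Fin a₂) (Fin a₃) (T i)) b m).trans
    (hO.alg (hypEquiv T) _ _).symm

end Pool.Agent.U554.TU
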