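import Pool.Agent.Y116.UV.Pres

/-!
# Presentations with many variables
-/

set_option autoImplicit false

open MvPolynomial Pool.Agent.Y116.UV

namespace Pool.Agent.U554.TU

variable {R : Type} [CommRing R]

lemma coeff_rename_mem {S : Set R} (h0 : 0 ∈ S) {V W : Type} (e : V → W)
    (he : Function.Injective e) {g : MvPolynomial V R} (hg : ∀ m, coeff m g ∈ S) (m : W →₀ ℕ) :
    coeff m (rename e g) ∈ S := by
  by_cases h : ∃ u : V →₀ ℕ, u.mapDomain e = m
  · obtain ⟨u, rfl⟩ := h
    rw [coeff_rename_mapDomain e he]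
    exact hg u
  · rw [coeff_rename_eq_zero]
    · exact h0
    · intro u hu
      exact absurd ⟨u, hu⟩ h

lemma coeff_X_mem {S : Set R} (h0 : 0 ∈ S) (h1 : 1 ∈ S) {V : Type} (i : V) (m : V →₀ ℕ) :
    coeff m (X i : MvPolynomial V R) ∈ S := by
  classical
  rw [coeff_X']
  split_ifs
  · exact h1
  · exact h0

/-- Transport of a presentation to the variables `Fin`. -/
lemma pres_fin {S : Set R} (h0 : 0 ∈ S) {A : Type} [CommRing A] [Algebra R A] {V : Type} [Fintype V]
    (φ : MvPolynomial V R →ₐ[R] A) (G : Finset (MvPolynomial V R)) (hs : Function.Surjective φ)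
    (hK : RingHom.ker φ = Ideal.span (G : Set (MvPolynomial V R)))
    (hc : ∀ g ∈ G, ∀ m, coeff m g ∈ S) :
    ∃ (φ' : MvPolynomial (Fin (Fintype.card V)) R →ₐ[R] A)
      (G' : Finset (MvPolynomial (Fin (Fintype.card V)) R)), Function.Surjective φ' ∧
      RingHom.ker φ' = Ideal.span (G' : Set (MvPolynomial (Fin (Fintype.card V)) R)) ∧
      ∀ g ∈ G', ∀ m, coeff m g ∈ S := by
  classical
  let e : V ≃ Fin (Fintype.card V) := Fintype.equivFin V
  let E : MvPolynomial V R ≃ₐ[R] MvPolynomial (Fin (Fintype.card V)) R := renameEquiv R e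
  refine ⟨φ.comp (E.symm : _ →ₐ[R] _), G.image E, ?_, ?_, ?_⟩
  · intro a
    obtain ⟨p, rfl⟩ := hs a
    refine ⟨E p, ?_⟩
    change φ (E.symm (E p)) = φ p
    rw [E.symm_apply_apply]
  · let E1 : MvPolynomial V R →+* MvPolynomial (Fin (Fintype.card V)) R :=
      (rename e : MvPolynomial V R →ₐ[R] _).toRingHom
    have h1 : (G.image E : Set (MvPolynomial (Fin (Fintype.card V)) R)) =
        E1 '' (G : Set (MvPolynomial V R)) := by
      rw [Finset.coe_image]
      rfl
    rw [h1, ← Ideal.map_span, ← hK]
    ext p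
    constructor
    · intro hp
      have h2 : E.symm p ∈ RingHom.ker φ := hp
      have h3 := Ideal.mem_map_of_mem E1 h2
      have h4 : E1 (E.symm p) = p := E.apply_symm_apply p
      rwa [h4] at h3
    · intro hp
      obtain ⟨q, hq, rfl⟩ := (Ideal.mem_map_iff_of_surjective E1
        (fun p => ⟨E.symm p, E.apply_symm_apply p⟩)).mp hp
      change φ (E.symm (E q)) = 0
      rw [E.symm_apply_apply]
      exact hq
  · intro g hg m
    obtain ⟨g, hg', rfl⟩ := Finset.mem_image.mp hg
    exact coeff_rename_mem h0 e e.injective (hc g hg') m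

/-- There are presentations with arbitrarily many variables. -/
theorem presents_large {S : Set R} (hS : Presents S) (h0 : 0 ∈ S) (h1 : 1 ∈ S) (A : Type)
    [CommRing A] [Algebra R A] [Algebra.FiniteType R A] (r : ℕ) :
    ∃ n : ℕ, r ≤ n ∧ ∃ (φ : MvPolynomial (Fin n) R →ₐ[R] A)
      (G : Finset (MvPolynomial (Fin n) R)), Function.Surjective φ ∧
      RingHom.ker φ = Ideal.span (G : Set (MvPolynomial (Fin n) R)) ∧
      ∀ g ∈ G, ∀ m, coeff m g ∈ S := by
  classical
  obtain ⟨n, φ, G, hs, hK, hc⟩ := hS A
  let π : MvPolynomial (Fin n ⊕ Fin r) R →ₐ[R] MvPolynomial (Fin n) R :=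
    aeval (Sum.elim X fun _ => 0)
  have hπ : ∀ p, π (rename Sum.inl p) = p := by
    intro p
    change aeval _ (rename Sum.inl p) = p
    rw [aeval_rename]
    exact aeval_X_left_apply p
  let G' : Finset (MvPolynomial (Fin n ⊕ Fin r) R) :=
    G.image (fun g => rename Sum.inl g) ∪ Finset.univ.image (fun j : Fin r => X (Sum.inr j))
  have hX : ∀ j : Fin r, (X (Sum.inr j) : MvPolynomial (Fin n ⊕ Fin r) R) ∈
      Ideal.span (G' : Set (MvPolynomial (Fin n ⊕ Fin r) R)) := fun j =>
    Ideal.subset_span (Finset.mem_coe.mpr (Finset.mem_union_right _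
      (Finset.mem_image.mpr ⟨j, Finset.mem_univ _, rfl⟩)))
  have hmod : ∀ p : MvPolynomial (Fin n ⊕ Fin r) R, p - rename Sum.inl (π p) ∈
      Ideal.span (G' : Set (MvPolynomial (Fin n ⊕ Fin r) R)) := by
    intro p
    rw [← Ideal.Quotient.eq]
    have h : (Ideal.Quotient.mkₐ R (Ideal.span (G' : Set (MvPolynomial (Fin n ⊕ Fin r) R)))) =
        ((Ideal.Quotient.mkₐ R (Ideal.span (G' : Set (MvPolynomial (Fin n ⊕ Fin r) R)))).comp
          (rename Sum.inl)).comp π := by
      apply MvPolynomial.algHom_ext
      rintro (i | j)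
      · change Ideal.Quotient.mkₐ R _ (X (Sum.inl i)) =
          Ideal.Quotient.mkₐ R _ (rename Sum.inl (π (X (Sum.inl i))))
        have : π (X (Sum.inl i)) = X i := by
          change aeval _ (X (Sum.inl i)) = _
          rw [aeval_X, Sum.elim_inl]
        rw [this, rename_X]
      · change Ideal.Quotient.mk _ (X (Sum.inr j)) =
          Ideal.Quotient.mkₐ R _ (rename Sum.inl (π (X (Sum.inr j))))
        have : π (X (Sum.inr j)) = 0 := by
          change aeval _ (X (Sum.inr j)) = _
          rw [aeval_X, Sum.elim_inr]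
        rw [this, map_zero, map_zero]
        exact Ideal.Quotient.eq_zero_iff_mem.mpr (hX j)
    exact congrArg (fun f : MvPolynomial (Fin n ⊕ Fin r) R →ₐ[R] _ => f p) h
  obtain ⟨φ', G'', hs', hK', hc'⟩ := pres_fin h0 (φ.comp π) G' (by
      intro a
      obtain ⟨p, rfl⟩ := hs a
      exact ⟨rename Sum.inl p, congrArg φ (hπ p)⟩) (by
      apply le_antisymm
      · intro p hp
        have h2 : π p ∈ Ideal.span (G : Set (MvPolynomial (Fin n) R)) := by
          rw [← hK]
          exact hp
        have h3 : ∀ q ∈ Ideal.span (G : Set (MvPolynomial (Fin n) R)),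
            rename Sum.inl q ∈ Ideal.span (G' : Set (MvPolynomial (Fin n ⊕ Fin r) R)) := by
          intro q hq
          have h4 : Ideal.span (G : Set (MvPolynomial (Fin n) R)) ≤
              (Ideal.span (G' : Set (MvPolynomial (Fin n ⊕ Fin r) R))).comap
                (rename Sum.inl : MvPolynomial (Fin n) R →ₐ[R] _) := by
            rw [Ideal.span_le]
            intro g hg
            exact Ideal.subset_span (Finset.mem_coe.mpr (Finset.mem_union_left _
              (Finset.mem_image.mpr ⟨g, hg, rfl⟩)))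
          exact h4 hq
        have h4 := Ideal.add_mem _ (hmod p) (h3 _ h2)
        rwa [sub_add_cancel] at h4
      · rw [Ideal.span_le]
        intro g hg
        rcases Finset.mem_union.mp (Finset.mem_coe.mp hg) with h | h
        · obtain ⟨g', hg', rfl⟩ := Finset.mem_image.mp h
          change φ (π (rename Sum.inl g')) = 0
          rw [hπ]
          have h5 : g' ∈ RingHom.ker φ := by
            rw [hK]
            exact Ideal.subset_span hg'
          exact h5
        · obtain ⟨j, -, rfl⟩ := Finset.mem_image.mp h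
          change φ (π (X (Sum.inr j))) = 0
          have : π (X (Sum.inr j)) = 0 := by
            change aeval _ (X (Sum.inr j)) = _
            rw [aeval_X, Sum.elim_inr]
          rw [this, map_zero]) (by
      intro g hg m
      rcases Finset.mem_union.mp hg with h | h
      · obtain ⟨g', hg', rfl⟩ := Finset.mem_image.mp h
        exact coeff_rename_mem h0 _ Sum.inl_injective (hc g' hg') m
      · obtain ⟨j, -, rfl⟩ := Finset.mem_image.mp h
        exact coeff_X_mem h0 h1 _ m)
  exact ⟨_, by simp, φ', G'', hs', hK', hc'⟩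

end Pool.Agent.U554.TU
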