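import Pool.Agent.Y116.UV.Main

/-!
# Theories with long exact sequences whose values are linear maps `A → B`, and their direct factors

`Reg K G` is the type of the `K`-linear maps `c : A → B`, where `B` is equipped with operators indexed by
`G` (for instance the elements of a Galois group) which fix the image of `c`.
-/

set_option autoImplicit false

open CategoryTheory AlgebraicGeometry Pool.Agent.Y116.UV

namespace Pool.Agent.U554.TU

universe w

/-- A `K`-linear map `c : A → B` and operators `act g` of `B` for `g` in `G`, which fix the image of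
`c`. -/
structure Reg (K G : Type) [CommRing K] where
  /-- the source -/
  A : Type w
  /-- the target -/
  B : Type w
  [addA : AddCommGroup A]
  [addB : AddCommGroup B]
  [modA : Module K A]
  [modB : Module K B]
  /-- the operators -/
  act : G → B →ₗ[K] B
  /-- the map -/
  c : A →ₗ[K] B
  inv : ∀ g a, act g (c a) = c a

attribute [instance] Reg.addA Reg.addB Reg.modA Reg.modB

namespace Reg

variable {K G : Type} [CommRing K]

/-- A homomorphism: a commutative square of linear maps, compatible with the operators. -/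
structure Hom (X Y : Reg.{w} K G) where
  /-- the map of the sources -/
  f : X.A →ₗ[K] Y.A
  /-- the map of the targets -/
  g : X.B →ₗ[K] Y.B
  comm : ∀ a, g (X.c a) = Y.c (f a)
  equi : ∀ s b, g (X.act s b) = Y.act s (g b)

/-- Exactness in the middle. -/
def Exact {X Y Z : Reg.{w} K G} (u : Hom X Y) (v : Hom Y Z) : Prop :=
  Function.Exact u.f v.f ∧ Function.Exact u.g v.g

/-- `A = 0` and `B = 0` -/
def Triv (X : Reg.{w} K G) : Prop := Subsingleton X.A ∧ Subsingleton X.B

/-- `X` and `Y` are isomorphic. -/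
def Iso (X Y : Reg.{w} K G) : Prop :=
  ∃ u : Hom X Y, Function.Bijective u.f ∧ Function.Bijective u.g

/-- `X` is a direct factor of `Y`. -/
def Factor (X Y : Reg.{w} K G) : Prop :=
  ∃ (s : Hom X Y) (r : Hom Y X), (∀ a, r.f (s.f a) = a) ∧ ∀ b, r.g (s.g b) = b

variable {X Y Z W : Reg.{w} K G}

lemma Iso.both (h : Iso X Y) : ∃ (s : Hom X Y) (r : Hom Y X), (∀ a, r.f (s.f a) = a) ∧
    (∀ b, r.g (s.g b) = b) ∧ (∀ a, s.f (r.f a) = a) ∧ ∀ b, s.g (r.g b) = b := by
  obtain ⟨u, h1, h2⟩ := h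
  let e1 := LinearEquiv.ofBijective u.f h1
  let e2 := LinearEquiv.ofBijective u.g h2
  have he1 : ∀ a, u.f (e1.symm a) = a := fun a => e1.apply_symm_apply a
  have he2 : ∀ a, u.g (e2.symm a) = a := fun a => e2.apply_symm_apply a
  refine ⟨u, ⟨e1.symm, e2.symm, ?_, ?_⟩, fun a => e1.symm_apply_apply a,
    fun b => e2.symm_apply_apply b, he1, he2⟩
  · intro a
    apply h2.1
    change u.g (e2.symm (Y.c a)) = u.g (X.c (e1.symm a))
    rw [he2, u.comm, he1]
  · intro s b
    apply h2.1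
    change u.g (e2.symm (Y.act s b)) = u.g (X.act s (e2.symm b))
    rw [he2, u.equi, he2]

lemma Iso.symm (h : Iso X Y) : Iso Y X := by
  obtain ⟨s, r, h1, h2, h3, h4⟩ := h.both
  exact ⟨r, ⟨Function.LeftInverse.injective h3, Function.RightInverse.surjective h1⟩,
    ⟨Function.LeftInverse.injective h4, Function.RightInverse.surjective h2⟩⟩

lemma Iso.factor (h : Iso X Y) : Factor X Y := by
  obtain ⟨s, r, h1, h2, -, -⟩ := h.both
  exact ⟨s, r, h1, h2⟩

lemma Iso.factor' (h : Iso X Y) : Factor Y X := h.symm.factor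

lemma Factor.trans (h : Factor X Y) (h' : Factor Y Z) : Factor X Z := by
  obtain ⟨s, r, h1, h2⟩ := h
  obtain ⟨s', r', h1', h2'⟩ := h'
  refine ⟨⟨s'.f ∘ₗ s.f, s'.g ∘ₗ s.g, ?_, ?_⟩, ⟨r.f ∘ₗ r'.f, r.g ∘ₗ r'.g, ?_, ?_⟩, ?_, ?_⟩
  · intro a
    change s'.g (s.g (X.c a)) = Z.c (s'.f (s.f a))
    rw [s.comm, s'.comm]
  · intro t b
    change s'.g (s.g (X.act t b)) = Z.act t (s'.g (s.g b))
    rw [s.equi, s'.equi]
  · intro a
    change r.g (r'.g (Z.c a)) = X.c (r.f (r'.f a))
    rw [r'.comm, r.comm]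
  · intro t b
    change r.g (r'.g (Z.act t b)) = X.act t (r.g (r'.g b))
    rw [r'.equi, r.equi]
  · intro a
    change r.f (r'.f (s'.f (s.f a))) = a
    rw [h1', h1]
  · intro b
    change r.g (r'.g (s'.g (s.g b))) = b
    rw [h2', h2]

lemma Iso.trans (h : Iso X Y) (h' : Iso Y Z) : Iso X Z := by
  obtain ⟨u, h1, h2⟩ := h
  obtain ⟨v, h1', h2'⟩ := h'
  refine ⟨⟨v.f ∘ₗ u.f, v.g ∘ₗ u.g, ?_, ?_⟩, ?_, ?_⟩
  · intro a
    change v.g (u.g (X.c a)) = Z.c (v.f (u.f a))
    rw [u.comm, v.comm]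
  · intro t b
    change v.g (u.g (X.act t b)) = Z.act t (v.g (u.g b))
    rw [u.equi, v.equi]
  · exact h1'.comp h1
  · exact h2'.comp h2

lemma mid_sub {M N P : Type w} [AddCommGroup M] [AddCommGroup N] [AddCommGroup P] [Module K M]
    [Module K N] [Module K P] {f : M →ₗ[K] N} {g : N →ₗ[K] P} (h : Function.Exact f g)
    (hM : Subsingleton M) (hP : Subsingleton P) : Subsingleton N := by
  refine subsingleton_of_forall_eq 0 fun x => ?_
  obtain ⟨y, hy⟩ := (h x).mp (Subsingleton.elim _ _)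
  rw [← hy, Subsingleton.elim y 0, map_zero]

lemma mid_bij {M N P Q : Type w} [AddCommGroup M] [AddCommGroup N] [AddCommGroup P]
    [AddCommGroup Q] [Module K M] [Module K N] [Module K P] [Module K Q] {f : M →ₗ[K] N}
    {g : N →ₗ[K] P} {h : P →ₗ[K] Q} (h1 : Function.Exact f g) (h2 : Function.Exact g h)
    (hM : Subsingleton M) (hQ : Subsingleton Q) : Function.Bijective g := by
  constructor
  · rw [injective_iff_map_eq_zero]
    intro x hx
    obtain ⟨y, hy⟩ := (h1 x).mp hx
    rw [← hy, Subsingleton.elim y 0, map_zero]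
  · intro x
    exact (h2 x).mp (Subsingleton.elim _ _)

lemma Triv.mid {u : Hom X Y} {v : Hom Y Z} (h : Exact u v) (hX : X.Triv) (hZ : Z.Triv) :
    Y.Triv :=
  ⟨mid_sub h.1 hX.1 hZ.1, mid_sub h.2 hX.2 hZ.2⟩

lemma iso_of_exact {t : Hom W X} {u : Hom X Y} {v : Hom Y Z} (h1 : Exact t u) (h2 : Exact u v)
    (hW : W.Triv) (hZ : Z.Triv) : Iso X Y :=
  ⟨u, mid_bij h1.1 h2.1 hW.1 hZ.1, mid_bij h1.2 h2.2 hW.2 hZ.2⟩

lemma Factor.triv (h : Factor X Y) (hY : Y.Triv) : X.Triv := by
  obtain ⟨s, r, h1, h2⟩ := h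
  have := hY.1
  have := hY.2
  constructor
  · refine subsingleton_of_forall_eq 0 fun a => ?_
    rw [← h1 a, Subsingleton.elim (s.f a) 0, map_zero]
  · refine subsingleton_of_forall_eq 0 fun a => ?_
    rw [← h2 a, Subsingleton.elim (s.g a) 0, map_zero]

end Reg

/-- Homological theories on the (separated) schemes of finite type over `R` with values in `Reg K G`,
indexed by a weight `b` and a degree `m`. In the applications `O b m X` is the regulator (cycle class
map) from `CH_b(X, m) ⊗ K` to the étale homology `H_{m + 2 b}(X, K(b))`, or only one of the two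
groups. The properties are

* `iso`: isomorphic schemes;
* `les`: the long exact sequence of a closed subscheme `Z` of `X` with complement `U`;
* `neg`: for every degree `m` the groups of sufficiently small weight are zero for all schemes (there
  are no cycles of negative dimension on `X × Δ^m`, no homology in negative degrees);
* `space`: homotopy invariance;
* `bundle`: homotopy invariance for the affine bundles `Spec A[w_1, …, w_c] / (∑ f_l w_l - 1) → U` of
  Jouanolou with fibre `𝔸^(c - 1)`, `U` the complement of `f = 0` in `Spec A`;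
* `torus`: pull-back to `X × 𝔾_m` and restriction to `X × 1`. -/
structure IsTheory {R : Type} [CommRing R] {K G : Type} [CommRing K]
    (O : ℤ → ℤ → Sch R → Reg.{w} K G) : Prop where
  iso : ∀ {X Y : Sch R}, FT True X → Nonempty (X ≅ Y) → ∀ b m : ℤ, Reg.Iso (O b m X) (O b m Y)
  les : ∀ {Z X U : Sch R} (i : Z ⟶ X) (j : U ⟶ X), FT True X → IsTriple i j → ∀ b : ℤ,
    ∃ (α : ∀ m : ℤ, Reg.Hom (O b m Z) (O b m X)) (β : ∀ m : ℤ, Reg.Hom (O b m X) (O b m U))
      (δ : ∀ m : ℤ, Reg.Hom (O b (m + 1) U) (O b m Z)), (∀ m, Reg.Exact (α m) (β m)) ∧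
      (∀ m, Reg.Exact (β (m + 1)) (δ m)) ∧ ∀ m, Reg.Exact (δ m) (α m)
  neg : ∀ m : ℤ, ∃ β : ℤ, ∀ b < β, ∀ X : Sch R, FT True X → (O b m X).Triv
  space : ∀ (A : Type) [CommRing A] [Algebra R A] [Algebra.FiniteType R A] (r : ℕ) (b m : ℤ),
    Reg.Iso (O b m (aff R A)) (O (b + r) m (aff R (MvPolynomial (Fin r) A)))
  bundle : ∀ (A : Type) [CommRing A] [Algebra R A] [Algebra.FiniteType R A] (c : ℕ)
    (f : Fin c → A) (U : Sch R) (j : U ⟶ aff R A), IsOpenImmersion j.left →
    Set.range j.left = {x : PrimeSpectrum A | ∃ l, f l ∉ x.asIdeal} →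
    ∀ b m : ℤ, Reg.Iso (O b m U) (O (b + c - 1) m (aff R (Jou f)))
  torus : ∀ (A : Type) [CommRing A] [Algebra R A] [Algebra.FiniteType R A] (b m : ℤ),
    Reg.Factor (O b m (aff R A)) (O (b + 1) m (aff R (LaurentPolynomial A)))

namespace IsTheory

variable {R : Type} [CommRing R] {K G : Type} [CommRing K] {O : ℤ → ℤ → Sch R → Reg.{w} K G}
  (hO : IsTheory O)

include hO

lemma alg {A B : Type} [CommRing A] [CommRing B] [Algebra R A] [Algebra R B]
    [Algebra.FiniteType R A] (e : A ≃ₐ[R] B) (b m : ℤ) :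
    Reg.Iso (O b m (aff R A)) (O b m (aff R B)) :=
  hO.iso (ft_aff True) ⟨(affIso e).symm⟩ b m

lemma total {Z X U : Sch R} (i : Z ⟶ X) (j : U ⟶ X) (hX : FT True X) (ht : IsTriple i j)
    {b m : ℤ} (hZ : (O b m Z).Triv) (hU : (O b m U).Triv) : (O b m X).Triv := by
  obtain ⟨α, β, δ, h1, h2, h3⟩ := hO.les i j hX ht b
  exact Reg.Triv.mid (h1 m) hZ hU

lemma opened {Z X U : Sch R} (i : Z ⟶ X) (j : U ⟶ X) (hX : FT True X) (ht : IsTriple i j)
    {b m : ℤ} (hZ : (O b m Z).Triv) (hZ' : (O b (m + 1) Z).Triv) :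
    Reg.Iso (O b (m + 1) X) (O b (m + 1) U) := by
  obtain ⟨α, β, δ, h1, h2, h3⟩ := hO.les i j hX ht b
  exact Reg.iso_of_exact (h1 (m + 1)) (h2 m) hZ' hZ

lemma closed {Z X U : Sch R} (i : Z ⟶ X) (j : U ⟶ X) (hX : FT True X) (ht : IsTriple i j)
    {b m : ℤ} (h : (O b m X).Triv) (h' : (O b (m + 1) X).Triv) :
    Reg.Iso (O b (m + 1) U) (O b m Z) := by
  obtain ⟨α, β, δ, h1, h2, h3⟩ := hO.les i j hX ht b
  exact Reg.iso_of_exact (h2 m) (h3 m) h' h

/-- The groups in the degrees `m - 1`, `m`, `m + 1` and the weight `b` are trivial for the products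
with affine spaces of large dimension. -/
lemma large (b m : ℤ) : ∃ N : ℕ, ∀ r : ℕ, N ≤ r → ∀ m' : ℤ, m - 1 ≤ m' → m' ≤ m + 1 →
    ∀ (A : Type) [CommRing A] [Algebra R A] [Algebra.FiniteType R A],
      (O b m' (aff R (MvPolynomial (Fin r) A))).Triv := by
  obtain ⟨β0, h0⟩ := hO.neg (m - 1)
  obtain ⟨β1, h1⟩ := hO.neg m
  obtain ⟨β2, h2⟩ := hO.neg (m + 1)
  refine ⟨(b - β0).toNat + (b - β1).toNat + (b - β2).toNat + 1, ?_⟩
  intro r hr m' hm hm' A _ _ _
  have h : (O (b - r) m' (aff R A)).Triv := by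
    have hc : m' = m - 1 ∨ m' = m ∨ m' = m + 1 := by omega
    rcases hc with rfl | rfl | rfl
    · exact h0 _ (by omega) _ (ft_aff True)
    · exact h1 _ (by omega) _ (ft_aff True)
    · exact h2 _ (by omega) _ (ft_aff True)
  have h3 := hO.space A r (b - r) m'
  rw [sub_add_cancel] at h3
  exact h3.factor'.triv h

end IsTheory

end Pool.Agent.U554.TU
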