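import Pool.Agent.U554.TU.Vars

/-!
# The part `u_0 = 0`, `v_0 ≠ 0` of the cone
-/

set_option autoImplicit false

open MvPolynomial Pool.Agent.Y116.UV

namespace Pool.Agent.U554.TU

variable {R : Type} [CommRing R] {n D : ℕ} (hD : 1 ≤ D) (G : Finset (MvPolynomial (Fin n) R))

/-- the nontrivial monomials -/
abbrev Nm (n D : ℕ) : Type := {m : Mon n D // m ≠ mo n D}

/-- the ring `R[v_0, 1 / v_0][v_m, m ≠ 0]` -/
abbrev TR (R : Type) [CommRing R] (n D : ℕ) : Type := MvPolynomial (Nm n D) (LaurentPolynomial R)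

open Classical in
/-- the image of `v_m` -/
noncomputable def vt (R : Type) [CommRing R] {n D : ℕ} (m : Mon n D) : TR R n D :=
  if h : m = mo n D then C (LaurentPolynomial.T 1) else X ⟨m, h⟩

lemma vt_mo : vt R (mo n D) = C (LaurentPolynomial.T 1) := dif_pos rfl

lemma vt_ne (m : Nm n D) : vt R m.1 = X m := dif_neg m.2

/-- `u ↦ 0` -/
noncomputable def q0 (R : Type) [CommRing R] (n D : ℕ) : UVRing R n D →ₐ[R] TR R n D :=
  aeval (Sum.elim (fun _ => 0) (vt R))

lemma q0_u (m : Mon n D) : q0 R n D (uu R m) = 0 := by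
  rw [q0, uu, aeval_X, Sum.elim_inl]

lemma q0_v (m : Mon n D) : q0 R n D (vv R m) = vt R m := by
  rw [q0, vv, aeval_X, Sum.elim_inr]

lemma q0_eqs (k : Mon n D ⊕ (Mon n D × Fin n) ⊕ G) : q0 R n D (eqs hD G k) = 0 := by
  rcases k with m | ⟨m, i⟩ | g
  · rw [eqs_lin]
    split_ifs
    · exact map_zero _
    · rw [map_add, map_mul, map_mul, q0_u, q0_u, zero_mul, zero_mul, add_zero]
  · rw [eqs_mul]
    split_ifs
    · rw [map_add, map_mul, map_mul, q0_u, q0_u, zero_mul, zero_mul, add_zero]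
    · exact map_zero _
  · unfold eqs
    rw [map_sum]
    apply Finset.sum_eq_zero
    intro m _
    rw [map_mul, map_mul, q0_u, zero_mul, mul_zero]

lemma q0_ker (a : UVRing R n D) (ha : a ∈ eqI hD G) : q0 R n D a = 0 := by
  have h : eqI hD G ≤ RingHom.ker (q0 R n D) := by
    rw [eqI, Ideal.span_le]
    rintro _ ⟨k, rfl⟩
    exact q0_eqs hD G k
  exact h ha

/-- the homomorphism of the ring of the cone -/
noncomputable def q1 : Cone hD G →ₐ[R] TR R n D :=
  Ideal.Quotient.liftₐ (eqI hD G) (q0 R n D) (q0_ker hD G)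

lemma q1_mk (a : UVRing R n D) : q1 hD G (Ideal.Quotient.mk (eqI hD G) a) = q0 R n D a := rfl

/-- the ring of `u_0 v_0 = 0` -/
abbrev Bd : Type := Cone hD G ⧸ Ideal.span {cw hD G}

lemma q1_ker (a : Cone hD G) (ha : a ∈ Ideal.span {cw hD G}) : q1 hD G a = 0 := by
  have h : Ideal.span {cw hD G} ≤ RingHom.ker (q1 hD G) := by
    rw [Ideal.span_le, Set.singleton_subset_iff]
    change q1 hD G (cw hD G) = 0
    rw [cw, q1_mk, map_mul, q0_u, zero_mul]
  exact h ha

/-- the homomorphism of the ring of `u_0 v_0 = 0` -/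
noncomputable def q2 : Bd hD G →ₐ[R] TR R n D :=
  Ideal.Quotient.liftₐ (Ideal.span {cw hD G}) (q1 hD G) (q1_ker hD G)

section

variable {B : Type} [CommRing B] [Algebra R B] (bc : UVRing R n D →ₐ[R] B)
  (hb : Function.Surjective bc) (he : ∀ k, bc (eqs hD G k) = 0)
  (hw : bc (uu R (mo n D)) * bc (vv R (mo n D)) = 0) (q2 : B →ₐ[R] TR R n D)
  (hq : ∀ a, q2 (bc a) = q0 R n D a)

/-- the class of a polynomial in the ring of `u_0 v_0 = 0`, `v_0 ≠ 0` -/
noncomputable def bl : UVRing R n D →ₐ[R] Localization.Away (bc (vv R (mo n D))) :=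
  (IsScalarTower.toAlgHom R B (Localization.Away (bc (vv R (mo n D))))).comp bc

lemma bl_apply (a : UVRing R n D) :
    bl bc a = algebraMap B (Localization.Away (bc (vv R (mo n D)))) (bc a) := rfl

lemma isUnit_v : IsUnit (bl bc (vv R (mo n D))) :=
  IsLocalization.map_units (M := Submonoid.powers (bc (vv R (mo n D))))
    (Localization.Away (bc (vv R (mo n D)))) ⟨_, Submonoid.mem_powers _⟩

include hw in
lemma bl_u0 : bl bc (uu R (mo n D)) = 0 := by
  have h : bl bc (uu R (mo n D)) * bl bc (vv R (mo n D)) = 0 := by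
    rw [bl_apply, bl_apply, ← map_mul, hw, map_zero]
  exact (isUnit_v bc).mul_left_eq_zero.mp h

include he hw in
lemma bl_u (m : Mon n D) : bl bc (uu R m) = 0 := by
  by_cases hm : m = mo n D
  · rw [hm]
    exact bl_u0 bc hw
  · have h : bl bc (eqs hD G (Sum.inl m)) = 0 := by
      rw [bl_apply, he, map_zero]
    rw [eqs_lin, if_neg hm, map_add, map_mul, map_mul, bl_u0 bc hw, zero_mul, add_zero] at h
    exact (isUnit_v bc).mul_left_eq_zero.mp h

include hq in
lemma q2_unit (y : Submonoid.powers (bc (vv R (mo n D)))) : IsUnit (q2 y) := by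
  obtain ⟨_, k, rfl⟩ := y
  change IsUnit (q2 (bc (vv R (mo n D)) ^ k))
  rw [map_pow, hq, q0_v, vt_mo]
  exact ((LaurentPolynomial.isUnit_T 1).map C).pow k

/-- the homomorphism of the localization -/
noncomputable def q3 : Localization.Away (bc (vv R (mo n D))) →ₐ[R] TR R n D :=
  IsLocalization.liftAlgHom (M := Submonoid.powers (bc (vv R (mo n D)))) (f := q2)
    (q2_unit bc q2 hq)

lemma q3_bl (a : UVRing R n D) : q3 bc q2 hq (bl bc a) = q0 R n D a := by
  rw [q3, bl_apply, IsLocalization.liftAlgHom_apply, IsLocalization.lift_eq]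
  exact hq a

/-- the homomorphism of the Laurent polynomials -/
noncomputable def r0 : LaurentPolynomial R →+* Localization.Away (bc (vv R (mo n D))) :=
  LaurentPolynomial.eval₂ (algebraMap R _) (isUnit_v bc).unit

/-- the inverse homomorphism -/
noncomputable def r1 : TR R n D →+* Localization.Away (bc (vv R (mo n D))) :=
  eval₂Hom (r0 bc) fun m => bl bc (vv R m.1)

lemma r1_vt (m : Mon n D) : r1 bc (vt R m) = bl bc (vv R m) := by
  by_cases hm : m = mo n D
  · rw [hm, vt_mo, r1, coe_eval₂Hom, eval₂_C, r0, LaurentPolynomial.eval₂_T, zpow_one]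
    rfl
  · rw [vt_ne ⟨m, hm⟩, r1, coe_eval₂Hom, eval₂_X]

include he hw in
lemma r1_q0 (a : UVRing R n D) : r1 bc (q0 R n D a) = bl bc a := by
  have h : (r1 bc).comp (q0 R n D).toRingHom = (bl bc).toRingHom := by
    apply MvPolynomial.ringHom_ext
    · intro r
      have h1 : q0 R n D (C r) = C (LaurentPolynomial.C r) := by
        rw [← algebraMap_eq, AlgHom.commutes]
        rfl
      change r1 bc (q0 R n D (C r)) = bl bc (C r)
      rw [h1, r1, coe_eval₂Hom, eval₂_C, r0, LaurentPolynomial.eval₂_C, ← algebraMap_eq,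
        AlgHom.commutes]
    · rintro (m | m)
      · change r1 bc (q0 R n D (uu R m)) = bl bc (uu R m)
        rw [q0_u, map_zero, bl_u hD G bc he hw]
      · change r1 bc (q0 R n D (vv R m)) = bl bc (vv R m)
        rw [q0_v, r1_vt]
  exact congrArg (fun f : UVRing R n D →+* _ => f a) h

include hb he hw in
lemma r1_q3 (x : Localization.Away (bc (vv R (mo n D)))) : r1 bc (q3 bc q2 hq x) = x := by
  have h : (r1 bc).comp (q3 bc q2 hq).toRingHom = RingHom.id _ := by
    apply IsLocalization.ringHom_ext (Submonoid.powers (bc (vv R (mo n D))))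
    apply RingHom.ext
    intro b
    obtain ⟨a, rfl⟩ := hb b
    change r1 bc (q3 bc q2 hq (bl bc a)) = bl bc a
    rw [q3_bl, r1_q0 hD G bc he hw]
  exact congrArg (fun f : _ →+* Localization.Away (bc (vv R (mo n D))) => f x) h

lemma q3_r1 (x : TR R n D) : q3 bc q2 hq (r1 bc x) = x := by
  have h : (q3 bc q2 hq).toRingHom.comp (r1 bc) = RingHom.id _ := by
    apply MvPolynomial.ringHom_ext
    · intro b
      have h2 : ((q3 bc q2 hq).toRingHom.comp (r0 bc)) =
          (C : LaurentPolynomial R →+* TR R n D) := by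
        apply laurent_hom_ext
        · intro r
          change q3 bc q2 hq (r0 bc (LaurentPolynomial.C r)) = _
          rw [r0, LaurentPolynomial.eval₂_C, AlgHom.commutes]
          rfl
        · change q3 bc q2 hq (r0 bc (LaurentPolynomial.T 1)) = _
          rw [r0, LaurentPolynomial.eval₂_T, zpow_one]
          change q3 bc q2 hq (bl bc (vv R (mo n D))) = _
          rw [q3_bl, q0_v, vt_mo]
      change q3 bc q2 hq (r1 bc (C b)) = C b
      rw [r1, coe_eval₂Hom, eval₂_C]
      exact congrArg (fun f : LaurentPolynomial R →+* TR R n D => f b) h2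
    · intro m
      change q3 bc q2 hq (r1 bc (X m)) = X m
      rw [← vt_ne, r1_vt, q3_bl, q0_v]
  exact congrArg (fun f : TR R n D →+* TR R n D => f x) h

include hb he hw hq in
/-- the general form -/
theorem rest_equiv : Nonempty (Localization.Away (bc (vv R (mo n D))) ≃ₐ[R] TR R n D) :=
  ⟨AlgEquiv.ofBijective (q3 bc q2 hq)
      ⟨Function.LeftInverse.injective (r1_q3 hD G bc hb he hw q2 hq),
        Function.RightInverse.surjective (q3_r1 bc q2 hq)⟩⟩

end

lemma nm_equiv (hD : 1 ≤ D) : ∃ r : ℕ, n ≤ r ∧ Nonempty (TR R n D ≃ₐ[R]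
    MvPolynomial (Fin r) (LaurentPolynomial R)) := by
  classical
  refine ⟨Fintype.card (Nm n D), ?_, ⟨?_⟩⟩
  · have h : Function.Injective fun i : Fin n => (⟨md D i, md_ne_mo hD i⟩ : Nm n D) := by
      intro i j h
      exact md_inj hD (congrArg Subtype.val h)
    simpa using Fintype.card_le_of_injective _ h
  · exact (renameEquiv (LaurentPolynomial R) (Fintype.equivFin (Nm n D))).restrictScalars R

/-- The part `v_0 ≠ 0` of `u_0 v_0 = 0` is the product of `𝔾_m` with an affine space whose dimension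
is at least `n`. -/
theorem cone_rest : ∃ (v : Bd hD G) (r : ℕ),
    v = Ideal.Quotient.mk (Ideal.span {cw hD G}) (Ideal.Quotient.mk (eqI hD G) (vv R (mo n D))) ∧
    n ≤ r ∧
    Nonempty (Localization.Away v ≃ₐ[R] MvPolynomial (Fin r) (LaurentPolynomial R)) := by
  let bc : UVRing R n D →ₐ[R] Bd hD G :=
    (Ideal.Quotient.mkₐ R (Ideal.span {cw hD G})).comp (Ideal.Quotient.mkₐ R (eqI hD G))
  have hb : Function.Surjective bc :=
    (Ideal.Quotient.mkₐ_surjective R _).comp (Ideal.Quotient.mkₐ_surjective R _)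
  have he : ∀ k, bc (eqs hD G k) = 0 := by
    intro k
    have h : Ideal.Quotient.mk (eqI hD G) (eqs hD G k) = 0 :=
      Ideal.Quotient.eq_zero_iff_mem.mpr (Ideal.subset_span ⟨k, rfl⟩)
    change Ideal.Quotient.mk (Ideal.span {cw hD G}) (Ideal.Quotient.mk (eqI hD G) (eqs hD G k)) = 0
    rw [h, map_zero]
  have hw : bc (uu R (mo n D)) * bc (vv R (mo n D)) = 0 := by
    rw [← map_mul]
    change Ideal.Quotient.mk (Ideal.span {cw hD G}) (cw hD G) = 0
    exact Ideal.Quotient.eq_zero_iff_mem.mpr (Ideal.mem_span_singleton_self _)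
  have hq : ∀ a, q2 hD G (bc a) = q0 R n D a := fun a => rfl
  obtain ⟨e⟩ := rest_equiv (B := Bd hD G) hD G bc hb he hw (q2 hD G) hq
  obtain ⟨r, hr, ⟨e'⟩⟩ := nm_equiv (R := R) (n := n) hD
  exact ⟨_, r, rfl, hr, ⟨e.trans e'⟩⟩

end Pool.Agent.U554.TU
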