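import Pool.Agent.U554.TU.Rest
import Pool.Agent.U554.TU.Reg
import Pool.Agent.U554.TU.Large

/-!
# Every affine scheme is a direct factor of a hypersurface `T(x, y, z) = 1`, degree by degree

For a theory as in `Pool.Agent.U554.TU.Reg`, an affine scheme `X` of finite type, a weight `b` and a
degree `m`, the value in the weight `b` and the degree `m` of `X` is a direct factor of the value in the
degree `m + 1` (and some weight) of a hypersurface `T(x, y, z) = 1`, `T` a trilinear form.
-/

set_option autoImplicit false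

open CategoryTheory AlgebraicGeometry MvPolynomial Pool.Agent.Y116.UV

namespace Pool.Agent.U554.TU

universe w

variable {R : Type} [CommRing R] {K G' : Type} [CommRing K] {O : ℤ → ℤ → Sch R → Reg.{w} K G'}

lemma quot_quot {C : Type} [CommRing C] [Algebra R C] (w v : C) (h : w ∈ Ideal.span {v}) :
    Nonempty (((C ⧸ Ideal.span {w}) ⧸ Ideal.span {Ideal.Quotient.mk (Ideal.span {w}) v}) ≃ₐ[R]
      C ⧸ Ideal.span {v}) := by
  have h1 : Ideal.span {w} ⊔ Ideal.span {v} = Ideal.span {v} := by
    apply sup_eq_right.mpr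
    rw [Ideal.span_le, Set.singleton_subset_iff]
    exact h
  have e1 := DoubleQuot.quotQuotEquivQuotSupₐ R (Ideal.span {w}) (Ideal.span {v})
  have h2 : Ideal.map (Ideal.Quotient.mkₐ R (Ideal.span {w})) (Ideal.span {v}) =
      Ideal.span {Ideal.Quotient.mk (Ideal.span {w}) v} := by
    rw [Ideal.map_span, Set.image_singleton]
    rfl
  rw [h1, h2] at e1
  exact ⟨e1⟩

lemma away_triv (hO : IsTheory O) {A B : Type} [CommRing A] [Algebra R A]
    [Algebra.FiniteType R A] [CommRing B] [Algebra R B] [Algebra.FiniteType R B] (v : A)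
    (e : Localization.Away v ≃ₐ[R] B) {b m : ℤ} (hB : (O b m (aff R B)).Triv)
    (hZ : (O b m (aff R (A ⧸ Ideal.span {v}))).Triv) : (O b m (aff R A)).Triv := by
  have hft : Algebra.FiniteType R (Localization.Away v) :=
    Algebra.FiniteType.trans (S := A) inferInstance inferInstance
  exact hO.total _ _ (ft_aff True) (triple_away v) hZ ((hO.alg e b m).factor.triv hB)

/-- The groups of the boundary `u_0 v_0 = 0` of the cone are trivial if there are many variables. -/
lemma bd_triv (hO : IsTheory O) {n D : ℕ} (hD : 1 ≤ D) (G : Finset (MvPolynomial (Fin n) R))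
    (b m : ℤ) (h : ∀ r : ℕ, n ≤ r → ∀ (A : Type) [CommRing A] [Algebra R A]
      [Algebra.FiniteType R A], (O b m (aff R (MvPolynomial (Fin r) A))).Triv) :
    (O b m (aff R (Cone hD G ⧸ Ideal.span {cw hD G}))).Triv := by
  obtain ⟨v, r, hv, hr, ⟨e⟩⟩ := cone_rest hD G
  have hL : Algebra.FiniteType R (LaurentPolynomial R) := ft_laurent R
  obtain ⟨B, _, _, _, ⟨e'⟩⟩ := cone_v0 hD G
  have h1 : cw hD G ∈ Ideal.span {Ideal.Quotient.mk (eqI hD G) (vv R (mo n D))} := by
    rw [cw, map_mul]
    exact Ideal.mul_mem_left _ _ (Ideal.mem_span_singleton_self _)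
  obtain ⟨e1⟩ := quot_quot (R := R) (cw hD G) (Ideal.Quotient.mk (eqI hD G) (vv R (mo n D))) h1
  refine away_triv hO v e (h r hr _) ?_
  rw [hv]
  exact (hO.alg (e1.trans e') b m).factor.triv (h n le_rfl _)

/-- The complement of `f = 0` in `Spec A`, and the closed subscheme `f = 0`. -/
lemma triple_ne {A : Type} [CommRing A] [Algebra R A] {c : ℕ} (f : Fin c → A) :
    IsTriple (affMap (Ideal.Quotient.mkₐ R (Ideal.span (Set.range f))))
      (opnMap (aff R A) (neOpen R f)) := by
  refine ⟨closed_affMap _ (Ideal.Quotient.mkₐ_surjective R _), inferInstance, ?_⟩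
  rw [range_affMap _ (Ideal.Quotient.mkₐ_surjective R _), range_opnMap]
  ext x
  change (∀ a, Ideal.Quotient.mk (Ideal.span (Set.range f)) a = 0 → a ∈ x.asIdeal) ↔
    ¬ ∃ l, f l ∉ x.asIdeal
  push Not
  constructor
  · intro h l
    exact h (f l) (Ideal.Quotient.eq_zero_iff_mem.mpr (Ideal.subset_span ⟨l, rfl⟩))
  · intro h a ha
    rw [Ideal.Quotient.eq_zero_iff_mem] at ha
    refine (Ideal.span_le.mpr ?_ : Ideal.span (Set.range f) ≤ x.asIdeal) ha
    rintro _ ⟨l, rfl⟩
    exact h l

lemma bundle_ne (hO : IsTheory O) {A : Type} [CommRing A] [Algebra R A] [Algebra.FiniteType R A]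
    {c : ℕ} (f : Fin c → A) (b m : ℤ) :
    Reg.Iso (O b m (opn (aff R A) (neOpen R f))) (O (b + c - 1) m (aff R (Jou f))) :=
  hO.bundle A c f _ (opnMap (aff R A) (neOpen R f)) inferInstance (range_opnMap _ _) b m

/-- The value of the closed subscheme `f = 0` of `Spec A` is the one of Jouanolou's bundle over its
complement, if the groups of `Spec A` are trivial in two degrees. -/
lemma closed_jou (hO : IsTheory O) {A : Type} [CommRing A] [Algebra R A] [Algebra.FiniteType R A]
    {c : ℕ} (f : Fin c → A) (b m : ℤ) (h : (O b m (aff R A)).Triv)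
    (h' : (O b (m + 1) (aff R A)).Triv) :
    Reg.Iso (O b m (aff R (A ⧸ Ideal.span (Set.range f))))
      (O (b + c - 1) (m + 1) (aff R (Jou f))) :=
  (hO.closed _ _ (ft_aff True) (triple_ne f) h h').symm.trans (bundle_ne hO f b (m + 1))

/-- **Universality of the hypersurfaces `T(x, y, z) = 1`, degree by degree.** -/
theorem universal_factor (hO : IsTheory O) {S : Set R} (h0 : 0 ∈ S) (h1 : 1 ∈ S)
    (hS : Presents S) (A : Type) [CommRing A] [Algebra R A] [Algebra.FiniteType R A] (b m : ℤ) :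
    ∃ (a₁ a₂ a₃ : ℕ) (T : Fin a₁ → Fin a₂ → Fin a₃ → R), (∀ i j k, T i j k ∈ S) ∧
      b + 2 < a₂ + a₃ ∧
      Reg.Factor (O b m (aff R A)) (O (b + 2 + a₁ - 1) (m + 1) (hypS T)) := by
  classical
  obtain ⟨N, hN⟩ := hO.large (b + 2) m
  obtain ⟨n, hn, φ, G, hs, hK, hc⟩ := presents_large hS h0 h1 A (N + (b + 2).toNat + 1)
  let D : ℕ := 1 + ∑ g ∈ G, ∑ m ∈ g.support, m.degree
  have hD : 1 ≤ D := by omega
  have hd : ∀ g ∈ G, ∀ m ∈ g.support, m.degree ≤ D := by
    intro g hg m hm
    have h1 : m.degree ≤ ∑ m ∈ g.support, m.degree :=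
      Finset.single_le_sum (f := fun m : Fin n →₀ ℕ => m.degree) (fun _ _ => Nat.zero_le _) hm
    have h2 : ∑ m ∈ g.support, m.degree ≤ ∑ g ∈ G, ∑ m ∈ g.support, m.degree :=
      Finset.single_le_sum (f := fun g : MvPolynomial (Fin n) R => ∑ m ∈ g.support, m.degree)
        (fun _ _ => Nat.zero_le _) hg
    omega
  have hG : ∀ g ∈ G, φ g = 0 := by
    intro g hg
    have : g ∈ RingHom.ker φ := by
      rw [hK]
      exact Ideal.subset_span hg
    exact this
  have hM : n ≤ Fintype.card (Mon n D) := by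
    simpa using Fintype.card_le_of_injective _ (md_inj (n := n) hD)
  -- the tori
  have hL := ft_laurent (R := R) A
  have hLL := ft_laurent (R := R) (LaurentPolynomial A)
  have hLC : Algebra.FiniteType R (LCone hD G) :=
    Algebra.FiniteType.trans (S := Cone hD G) inferInstance inferInstance
  have k1 := (hO.torus A b m).trans (hO.torus (LaurentPolynomial A) (b + 1) m)
  have hb2 : b + 1 + 1 = b + 2 := by ring
  rw [hb2] at k1
  have k2 : Reg.Factor (O b m (aff R A)) (O (b + 2) m (aff R (LCone hD G))) :=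
    k1.trans (hO.alg (coneEquiv hD G φ hG hd hs hK) (b + 2) m).factor'
  -- the boundary
  have hbd : ∀ m' : ℤ, m - 1 ≤ m' → m' ≤ m + 1 →
      (O (b + 2) m' (aff R (Cone hD G ⧸ Ideal.span {cw hD G}))).Triv := by
    intro m' hm1 hm2
    exact bd_triv hO hD G (b + 2) m' fun r hr B _ _ _ => hN r (by omega) m' hm1 hm2 B
  have k3 : Reg.Iso (O (b + 2) m (aff R (Cone hD G))) (O (b + 2) m (aff R (LCone hD G))) := by
    have h := hO.opened (b := b + 2) (m := m - 1) _ _ (ft_aff True) (triple_away (cw hD G))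
      (hbd _ (by omega) (by omega)) (hbd _ (by omega) (by omega))
    rwa [sub_add_cancel] at h
  -- the complement in the affine space
  let κ : Type := Mon n D ⊕ (Mon n D × Fin n) ⊕ G
  let e : Fin (Fintype.card κ) ≃ κ := (Fintype.equivFin κ).symm
  let eM : Fin (Fintype.card (Mon n D)) ≃ Mon n D := (Fintype.equivFin (Mon n D)).symm
  choose T0 hT0S hT0 using fun k : κ => eqs_mem hD G h0 h1 hc k
  let f : Fin (Fintype.card κ) → UVRing R n D := fun i => bil (Mon n D) (Mon n D) (T0 (e i))
  have hf : Ideal.span (Set.range f) = eqI hD G := by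
    have : f = eqs hD G ∘ e := by
      funext i
      exact hT0 (e i)
    rw [this, e.surjective.range_comp, eqI]
  have hcard : n ≤ Fintype.card (Mon n D ⊕ Mon n D) := by
    rw [Fintype.card_sum]
    omega
  have hsp : ∀ m' : ℤ, m - 1 ≤ m' → m' ≤ m + 1 → (O (b + 2) m' (aff R (UVRing R n D))).Triv := by
    intro m' hm1 hm2
    exact (hO.alg (renameEquiv R (Fintype.equivFin (Mon n D ⊕ Mon n D))) _ _).factor.triv
      (hN _ (by omega) m' hm1 hm2 R)
  have k4 := closed_jou hO f (b + 2) m (hsp _ (by omega) (by omega)) (hsp _ (by omega) (by omega))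
  have k5 : Reg.Iso (O (b + 2) m (aff R (Cone hD G)))
      (O (b + 2) m (aff R (UVRing R n D ⧸ Ideal.span (Set.range f)))) :=
    hO.alg (Ideal.quotientEquivAlgOfEq R hf.symm) _ _
  let T : Fin (Fintype.card κ) → Fin (Fintype.card (Mon n D)) → Fin (Fintype.card (Mon n D)) → R :=
    fun i j k => T0 (e i) (eM j) (eM k)
  have e6 : Hyp T ≃ₐ[R] Jou f :=
    (hypRename (Equiv.refl _) eM eM fun i => T0 (e i)).trans (hypEquiv fun i => T0 (e i))
  have hHT : Algebra.FiniteType R (Hyp T) := inferInstance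
  have k6 := hO.alg e6 (b + 2 + (Fintype.card κ : ℤ) - 1) (m + 1)
  refine ⟨Fintype.card κ, Fintype.card (Mon n D), Fintype.card (Mon n D), T,
    fun _ _ _ => hT0S _ _ _, by omega, ?_⟩
  exact k2.trans (k3.factor'.trans (k5.factor.trans (k4.factor.trans k6.factor')))

end Pool.Agent.U554.TU
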