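import Pool.Agent.Y116.UV.Main

/-!
# The boundary of the cone is a product with an affine space of large dimension

Let `C` be the affine scheme given by the bilinear equations in `u`, `v` which belong to a presentation
with `n` variables (`Pool.Agent.Y116.UV.Cone`). Its closed subscheme `v_0 = 0` is a product with the
affine space of dimension `n`, and the subscheme `u_0 v_0 = 0`, `v_0 ≠ 0` is a product with the affine
space whose coordinates are the `v_m`, `m ≠ 0`.
-/

set_option autoImplicit false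

open MvPolynomial Pool.Agent.Y116.UV

namespace Pool.Agent.U554.TU

variable {R : Type} [CommRing R]

/-- An ideal generated by polynomials without the variables in `s`: the quotient is a polynomial
ring in the variables in `s`. -/
lemma free_vars {σ : Type} (s : Set σ) (Q : Set (MvPolynomial (sᶜ : Set σ) R))
    (I : Ideal (MvPolynomial σ R))
    (hI : I = Ideal.span ((fun p => rename (Subtype.val : (sᶜ : Set σ) → σ) p) '' Q)) :
    Nonempty ((MvPolynomial σ R ⧸ I) ≃ₐ[R]
      MvPolynomial s (MvPolynomial (sᶜ : Set σ) R ⧸ Ideal.span Q)) := by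
  classical
  let e1 : MvPolynomial σ R ≃ₐ[R] MvPolynomial (s ⊕ (sᶜ : Set σ)) R :=
    renameEquiv R (Equiv.Set.sumCompl s).symm
  let e2 : MvPolynomial (s ⊕ (sᶜ : Set σ)) R ≃ₐ[R] MvPolynomial s (MvPolynomial (sᶜ : Set σ) R) :=
    sumAlgEquiv R s (sᶜ : Set σ)
  let e : MvPolynomial σ R ≃ₐ[R] MvPolynomial s (MvPolynomial (sᶜ : Set σ) R) := e1.trans e2
  have he : ∀ p : MvPolynomial (sᶜ : Set σ) R, e (rename Subtype.val p) = C p := by
    intro p
    have h : ((e : MvPolynomial σ R →ₐ[R] _).comp (rename (Subtype.val : (sᶜ : Set σ) → σ))) =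
        (IsScalarTower.toAlgHom R (MvPolynomial (sᶜ : Set σ) R)
          (MvPolynomial s (MvPolynomial (sᶜ : Set σ) R))) := by
      apply MvPolynomial.algHom_ext
      intro i
      change e2 (e1 (rename Subtype.val (X i))) = C (X i)
      rw [rename_X]
      change e2 (rename _ (X (i : σ))) = _
      rw [rename_X]
      have h2 : (Equiv.Set.sumCompl s).symm (i : σ) = Sum.inr i :=
        Equiv.Set.sumCompl_symm_apply_compl i
      rw [h2]
      exact sumAlgEquiv_X_inr R s _ i
    exact congrArg (fun f : MvPolynomial (sᶜ : Set σ) R →ₐ[R] _ => f p) h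
  have h1 : Ideal.map (C : MvPolynomial (sᶜ : Set σ) R →+* MvPolynomial s _) (Ideal.span Q) =
      Ideal.map (e : MvPolynomial σ R →+* MvPolynomial s (MvPolynomial (sᶜ : Set σ) R)) I := by
    rw [hI, Ideal.map_span, Ideal.map_span, ← Set.image_comp]
    congr 1
    apply Set.image_congr
    intro p _
    exact (he p).symm
  let e3 : (MvPolynomial σ R ⧸ I) ≃ₐ[R] (MvPolynomial s (MvPolynomial (sᶜ : Set σ) R) ⧸
      Ideal.map (C : MvPolynomial (sᶜ : Set σ) R →+* MvPolynomial s _) (Ideal.span Q)) :=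
    Ideal.quotientEquivAlg _ _ e h1
  let e4 : MvPolynomial s (MvPolynomial (sᶜ : Set σ) R ⧸ Ideal.span Q) ≃ₐ[MvPolynomial (sᶜ : Set σ) R]
      (MvPolynomial s (MvPolynomial (sᶜ : Set σ) R) ⧸
      Ideal.map (C : MvPolynomial (sᶜ : Set σ) R →+* MvPolynomial s _) (Ideal.span Q)) :=
    MvPolynomial.quotientEquivQuotientMvPolynomial (Ideal.span Q)
  exact ⟨e3.trans (e4.restrictScalars R).symm⟩

section

variable {n D : ℕ} (hD : 1 ≤ D) (G : Finset (MvPolynomial (Fin n) R))

/-- the monomial `x_i ^ D` -/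
noncomputable def md (D : ℕ) (i : Fin n) : Mon n D :=
  ⟨Finsupp.single i D, by rw [Finsupp.degree_single]⟩

lemma md_inj {D : ℕ} (hD : 1 ≤ D) : Function.Injective (md (n := n) D) := by
  intro i j h
  have h1 : Finsupp.single i D = Finsupp.single j D := congrArg Subtype.val h
  exact Finsupp.single_left_injective (by omega) h1

lemma md_ne_mo {D : ℕ} (hD : 1 ≤ D) (i : Fin n) : md D i ≠ mo n D := by
  intro h
  have h1 : Finsupp.single i D = (0 : Fin n →₀ ℕ) := congrArg Subtype.val h
  have h2 := Finsupp.single_eq_zero.mp h1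
  omega

/-- the free variables -/
def fv (n D : ℕ) : Set (Mon n D ⊕ Mon n D) := Set.range fun i : Fin n => Sum.inl (md D i)

lemma inr_mem (m : Mon n D) : Sum.inr m ∈ (fv n D)ᶜ := by
  rintro ⟨i, h⟩
  simp at h

lemma inl_mem {m : Mon n D} (h : m.1.degree < D) : Sum.inl m ∈ (fv n D)ᶜ := by
  rintro ⟨i, h1⟩
  have h2 : md D i = m := Sum.inl.inj h1
  rw [← h2] at h
  have h3 : (Finsupp.single i D).degree < D := h
  rw [Finsupp.degree_single] at h3
  omega

lemma mo_mem (hD : 1 ≤ D) : Sum.inl (mo n D) ∈ (fv n D)ᶜ := by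
  apply inl_mem
  change (0 : Fin n →₀ ℕ).degree < D
  rw [map_zero]
  omega

open Classical in
/-- the equations modulo `v_0` -/
noncomputable def sq : Option (Mon n D ⊕ (Mon n D × Fin n)) → UVRing R n D
  | none => vv R (mo n D)
  | some (Sum.inl m) => if m = mo n D then 0 else uu R (mo n D) * vv R m
  | some (Sum.inr (m, i)) =>
      if (m.1 + Finsupp.single i 1).degree ≤ D then uu R m * vv R (me hD i) else 0

lemma sq_range (k : Option (Mon n D ⊕ (Mon n D × Fin n))) :
    ∃ p : MvPolynomial ((fv n D)ᶜ : Set _) R, rename Subtype.val p = sq (R := R) hD k := by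
  rcases k with _ | m | ⟨m, i⟩
  · exact ⟨X ⟨_, inr_mem _⟩, rename_X _ _⟩
  · by_cases hm : m = mo n D
    · refine ⟨0, ?_⟩
      rw [sq, if_pos hm, map_zero]
    · refine ⟨X ⟨_, mo_mem hD⟩ * X ⟨_, inr_mem m⟩, ?_⟩
      rw [sq, if_neg hm, map_mul, rename_X, rename_X]
      rfl
  · by_cases hm : (m.1 + Finsupp.single i 1).degree ≤ D
    · have h : m.1.degree < D := by
        rw [map_add, Finsupp.degree_single] at hm
        omega
      refine ⟨X ⟨_, inl_mem h⟩ * X ⟨_, inr_mem (me hD i)⟩, ?_⟩
      rw [sq, if_pos hm, map_mul, rename_X, rename_X]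
      rfl
    · refine ⟨0, ?_⟩
      rw [sq, if_neg hm, map_zero]

lemma sup_eq : eqI hD G ⊔ Ideal.span {vv R (mo n D)} = Ideal.span (Set.range (sq (R := R) hD)) := by
  classical
  have hv : vv R (mo n D) ∈ Ideal.span (Set.range (sq (R := R) hD)) :=
    Ideal.subset_span ⟨none, rfl⟩
  have hv' : vv R (mo n D) ∈ eqI hD G ⊔ Ideal.span {vv R (mo n D)} :=
    Ideal.mem_sup_right (Ideal.mem_span_singleton_self _)
  have he : ∀ k, eqs hD G k ∈ eqI hD G ⊔ Ideal.span {vv R (mo n D)} := fun k =>
    Ideal.mem_sup_left (Ideal.subset_span ⟨k, rfl⟩)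
  have hq : ∀ k : Option (Mon n D ⊕ (Mon n D × Fin n)),
      sq hD k ∈ Ideal.span (Set.range (sq (R := R) hD)) := fun k => Ideal.subset_span ⟨k, rfl⟩
  apply le_antisymm
  · refine sup_le ?_ ?_
    · rw [eqI, Ideal.span_le]
      rintro _ ⟨m | ⟨m, i⟩ | g, rfl⟩
      · rw [eqs_lin]
        split_ifs with h
        · exact Ideal.zero_mem _
        · have h1 := hq (some (Sum.inl m))
          rw [sq, if_neg h] at h1
          exact Ideal.add_mem _ (Ideal.mul_mem_left _ _ hv) h1
      · rw [eqs_mul]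
        split_ifs with h
        · have h1 := hq (some (Sum.inr (m, i)))
          rw [sq, if_pos h] at h1
          exact Ideal.add_mem _ h1 (Ideal.mul_mem_left _ _ hv)
        · exact Ideal.zero_mem _
      · unfold eqs
        exact Ideal.sum_mem _ fun m _ => Ideal.mul_mem_left _ _ (Ideal.mul_mem_left _ _ hv)
    · rw [Ideal.span_le, Set.singleton_subset_iff]
      exact hv
  · rw [Ideal.span_le]
    rintro _ ⟨_ | m | ⟨m, i⟩, rfl⟩
    · exact hv'
    · rw [sq]
      split_ifs with h
      · exact Ideal.zero_mem _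
      · have h1 := he (Sum.inl m)
        rw [eqs_lin, if_neg h] at h1
        have h2 := Ideal.sub_mem _ h1 (Ideal.mul_mem_left _ (uu R m) hv')
        rwa [add_sub_cancel_left] at h2
    · rw [sq]
      split_ifs with h
      · have h1 := he (Sum.inr (Sum.inl (m, i)))
        rw [eqs_mul, dif_pos h] at h1
        have h2 := Ideal.sub_mem _ h1 (Ideal.mul_mem_left _ (uu R ⟨_, h⟩) hv')
        rwa [add_sub_cancel_right] at h2
      · exact Ideal.zero_mem _

/-- The closed subscheme `v_0 = 0` of the cone is a product with the affine space of dimension `n`. -/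
theorem cone_v0 : ∃ (B : Type) (_ : CommRing B) (_ : Algebra R B) (_ : Algebra.FiniteType R B),
    Nonempty ((Cone hD G ⧸ Ideal.span {Ideal.Quotient.mk (eqI hD G) (vv R (mo n D))}) ≃ₐ[R]
      MvPolynomial (Fin n) B) := by
  classical
  let S0 : Set (UVRing R n D) := Set.range (sq (R := R) hD)
  let Q : Set (MvPolynomial ((fv n D)ᶜ : Set _) R) :=
    (fun p => rename (Subtype.val : ((fv n D)ᶜ : Set _) → _) p) ⁻¹' S0
  have hQ : (fun p => rename (Subtype.val : ((fv n D)ᶜ : Set _) → _) p) '' Q = S0 := by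
    apply Set.image_preimage_eq_of_subset
    rintro _ ⟨k, rfl⟩
    exact sq_range hD k
  obtain ⟨e⟩ := free_vars (fv n D) Q (eqI hD G ⊔ Ideal.span {vv R (mo n D)})
    (by rw [hQ]; exact sup_eq hD G)
  have hinj : Function.Injective fun i : Fin n => (Sum.inl (md D i) : Mon n D ⊕ Mon n D) :=
    Sum.inl_injective.comp (md_inj hD)
  let ev : Fin n ≃ fv n D := Equiv.ofInjective _ hinj
  refine ⟨MvPolynomial ((fv n D)ᶜ : Set _) R ⧸ Ideal.span Q, inferInstance, inferInstance,
    inferInstance, ⟨?_⟩⟩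
  have h6 : Ideal.map (Ideal.Quotient.mkₐ R (eqI hD G)) (Ideal.span {vv R (mo n D)}) =
      Ideal.span {Ideal.Quotient.mk (eqI hD G) (vv R (mo n D))} := by
    rw [Ideal.map_span, Set.image_singleton]
    rfl
  rw [← h6]
  exact (DoubleQuot.quotQuotEquivQuotSupₐ R (eqI hD G) (Ideal.span {vv R (mo n D)})).trans
    (e.trans ((renameEquiv _ ev.symm).restrictScalars R))

end

end Pool.Agent.U554.TU
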